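import Pool.Agent.V7H30.DG.Lines

/-!
# Duality of good pairs
-/

set_option autoImplicit false

namespace Pool.Agent.V7H30.DG

open Finset Pool.Agent.V7H30.DW

noncomputable section

variable {P B : Type} [Fintype P] [Fintype B] {I : P → B → Prop} {n l : ℕ}

theorem mem_line_symm (h : Des I n l) {x y z : P} (hxy : x ≠ y) (hxz : x ≠ z)
    (hz : z ∈ line I x y) : y ∈ line I x z := by
  rw [line_eq h hxy (left_mem x y) hz hxz]
  exact right_mem x y

open Classical in
/-- A cone with the vertex `z` has about the `n`-th part of its points in a block that does not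
contain `z`. -/
theorem cone_inter (h : Des I n l) {U : Finset P} {z : P} (hz : z ∈ U)
    (hU : ∀ y ∈ U, z ≠ y → Good I n z y ∧ line I z y ⊆ U) {b : B} (hzb' : ¬ I z b) :
    n * (U ∩ pts I b).card + 1 = U.card := by
  have h1 := sum_card_bipartiteAbove_eq_sum_card_bipartiteBelow (s := U.erase z)
    (t := U ∩ pts I b) fun x w => w ∈ line I z x
  have h2 : ∀ x ∈ U.erase z, (bipartiteAbove (fun x w => w ∈ line I z x) (U ∩ pts I b) x).card =
      1 := by
    intro x hx
    rw [mem_erase] at hx
    obtain ⟨hg, hs⟩ := hU x hx.2 hx.1.symm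
    rw [← card_meet h hg (b := b) (fun hc => hzb' hc.1)]
    congr 1
    ext w
    simp only [bipartiteAbove, mem_filter, mem_inter]
    constructor
    · rintro ⟨⟨h3, h4⟩, h5⟩
      exact ⟨h5, h4⟩
    · rintro ⟨h3, h4⟩
      exact ⟨⟨hs h3, h4⟩, h3⟩
  have h3 : ∀ w ∈ U ∩ pts I b, (bipartiteBelow (fun x w => w ∈ line I z x) (U.erase z) w).card =
      n := by
    intro w hw
    rw [mem_inter, mem_pts] at hw
    have hzw : z ≠ w := by
      rintro rfl
      exact hzb' hw.2
    obtain ⟨hg, hs⟩ := hU w hw.1 hzw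
    have h4 : (line I z w).erase z = bipartiteBelow (fun x w => w ∈ line I z x) (U.erase z) w := by
      ext x
      simp only [bipartiteBelow, mem_filter, mem_erase]
      constructor
      · rintro ⟨h5, h6⟩
        exact ⟨⟨h5, hs h6⟩, mem_line_symm h hzw (Ne.symm h5) h6⟩
      · rintro ⟨⟨h5, h6⟩, h7⟩
        exact ⟨h5, mem_line_symm h (Ne.symm h5) hzw h7⟩
    rw [← h4, card_erase_of_mem (left_mem z w), hg.2]
    rfl
  rw [sum_congr rfl h2, sum_congr rfl h3, sum_const, sum_const, smul_eq_mul, smul_eq_mul, mul_one,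
    card_erase_of_mem hz] at h1
  have h4 : 0 < U.card := card_pos.2 ⟨z, hz⟩
  rw [Nat.mul_comm n]
  omega

open Classical in
/-- A set which is closed under good lines is contained in a block or has about the `n`-th part
of its points in the block. -/
theorem closed_inter (h : Des I n l) {U : Finset P}
    (hU : ∀ x ∈ U, ∀ y ∈ U, x ≠ y → Good I n x y ∧ line I x y ⊆ U) {b : B}
    (hb : ¬ U ⊆ pts I b) : n * (U ∩ pts I b).card + 1 = U.card := by
  obtain ⟨z, hz, hzb⟩ := not_subset.1 hb
  exact cone_inter h hz (fun y hy hzy => hU z hz y hy hzy) fun hc => hzb (mem_pts.2 hc)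

open Classical in
/-- The number of blocks through the intersection of two blocks and a further point. -/
theorem card_through (h : Des I n l) (hn : 1 ≤ n) {e f : B} (hef : e ≠ f)
    (hall : ∀ x y, I x e → I y e → x ≠ y → Good I n x y) {p : P}
    (hp : p ∉ pts I e ∩ pts I f) :
    ((thr I p).filter fun b => pts I e ∩ pts I f ⊆ pts I b).card = 1 := by
  set U := pts I e ∩ pts I f with hUdef
  have hUc : U.card = l := h.bb e f hef
  have hU : ∀ x ∈ U, ∀ y ∈ U, x ≠ y → Good I n x y ∧ line I x y ⊆ U := by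
    intro x hx y hy hxy
    rw [hUdef, mem_inter, mem_pts, mem_pts] at hx hy
    exact ⟨hall x y hx.1 hy.1 hxy, subset_inter (line_sub hx.1 hy.1) (line_sub hx.2 hy.2)⟩
  have h1 := dc (I := I) (thr I p) U
  have h2 : ∑ w ∈ U, (thr I p ∩ thr I w).card = l * l := by
    rw [sum_congr rfl fun w hw => h.pp p w (by rintro rfl; exact hp hw), sum_const, hUc,
      smul_eq_mul]
  set X := ((thr I p).filter fun b => U ⊆ pts I b).card with hX
  have h3 : n * ∑ b ∈ thr I p, (U ∩ pts I b).card + ((thr I p).filter fun b => ¬ U ⊆ pts I b).card =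
      X * (n * l) + ((thr I p).filter fun b => ¬ U ⊆ pts I b).card * l := by
    rw [← sum_filter_add_sum_filter_not (thr I p) (fun b => U ⊆ pts I b)]
    have h4 : ∑ b ∈ (thr I p).filter (fun b => U ⊆ pts I b), (U ∩ pts I b).card = X * l := by
      rw [sum_congr rfl (g := fun _ => l), sum_const, smul_eq_mul]
      intro b hb
      rw [inter_eq_left.2 (mem_filter.1 hb).2, hUc]
    have h5 : n * ∑ b ∈ (thr I p).filter (fun b => ¬ U ⊆ pts I b), (U ∩ pts I b).card +
        ((thr I p).filter fun b => ¬ U ⊆ pts I b).card =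
        ((thr I p).filter fun b => ¬ U ⊆ pts I b).card * l := by
      rw [mul_sum, card_eq_sum_ones, sum_mul, ← sum_add_distrib]
      refine sum_congr rfl fun b hb => ?_
      rw [closed_inter h hU (mem_filter.1 hb).2, hUc, one_mul]
    rw [h4, Nat.mul_add]
    have h6 : n * (X * l) = X * (n * l) := by ring
    omega
  have h4 := card_filter_add_card_filter_not (s := thr I p) fun b => U ⊆ pts I b
  rw [h.pt, ← hX] at h4
  set Y := ((thr I p).filter fun b => ¬ U ⊆ pts I b).card with hY
  rw [h1, h2] at h3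
  obtain ⟨m, rfl⟩ : ∃ m, n = m + 1 := ⟨n - 1, by omega⟩
  -- `X (n l - l + 1) = n l - l + 1`
  have h5 : Y = (m + 1) * l + 1 - X := by omega
  have h6 : X ≤ (m + 1) * l + 1 := by omega
  have h7 : X * (m * l + 1) = 1 * (m * l + 1) := by
    have h8 : (Y : ℤ) = ((m : ℤ) + 1) * l + 1 - X := by
      have : ((X : ℤ) + Y) = ((m : ℤ) + 1) * l + 1 := by exact_mod_cast h4
      linarith
    have h9 : ((m : ℤ) + 1) * (l * l) + Y = X * ((m + 1) * l) + Y * l := by exact_mod_cast h3
    rw [h8] at h9
    have h10 : (X : ℤ) * (m * l + 1) = 1 * (m * l + 1) := by linarith [h9, mul_comm (m : ℤ) l]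
    exact_mod_cast h10
  exact Nat.eq_of_mul_eq_mul_right (by positivity) h7

open Classical in
/-- The intersection of a perfect block and another block is contained in `n + 1` blocks. -/
theorem good_flip (h : Des I n l) (hn : 1 ≤ n) {e f : B} (hef : e ≠ f)
    (hall : ∀ x y, I x e → I y e → x ≠ y → Good I n x y) : Good (flip I) n e f := by
  refine ⟨hef, ?_⟩
  set U := pts I e ∩ pts I f with hUdef
  have hUc : U.card = l := h.bb e f hef
  have hG : ∀ b, b ∈ line (flip I) e f ↔ U ⊆ pts I b := by
    intro b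
    rw [mem_line]
    constructor
    · intro h1 x hx
      rw [hUdef, mem_inter, mem_pts, mem_pts] at hx
      exact mem_pts.2 (h1 x hx.1 hx.2)
    · intro h1 x hx hx'
      have h2 : I x b := mem_pts.1 (h1 (mem_inter.2 ⟨mem_pts.2 hx, mem_pts.2 hx'⟩))
      exact h2
  have h1 := dc (I := I) (line (flip I) e f) (univ \ U)
  have h2 : ∑ b ∈ line (flip I) e f, ((univ \ U) ∩ pts I b).card =
      (line (flip I) e f).card * (n * l + 1 - l) := by
    rw [card_eq_sum_ones, sum_mul]
    refine sum_congr rfl fun b hb => ?_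
    have h3 : (univ \ U) ∩ pts I b = pts I b \ U := by
      ext x
      simp only [mem_inter, mem_sdiff, mem_univ, true_and]
      tauto
    rw [h3, card_sdiff_of_subset ((hG b).1 hb), h.bl, hUc, one_mul]
  have h3 : ∑ x ∈ univ \ U, (line (flip I) e f ∩ thr I x).card =
      n * (n * l + 1) + 1 - l := by
    have h4 : ∀ x ∈ univ \ U, (line (flip I) e f ∩ thr I x).card = 1 := by
      intro x hx
      rw [mem_sdiff] at hx
      rw [← card_through h hn hef hall hx.2]
      congr 1
      ext b
      rw [mem_inter, hG, mem_filter]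
      tauto
    rw [sum_congr rfl h4, sum_const, smul_eq_mul, mul_one, card_sdiff_of_subset (subset_univ _),
      card_univ, h.cardP, hUc]
  rw [h2, h3] at h1
  obtain ⟨m, rfl⟩ : ∃ m, n = m + 1 := ⟨n - 1, by omega⟩
  have h4 : (m + 1) * l + 1 - l = m * l + 1 := by
    have : (m + 1) * l + 1 = m * l + 1 + l := by ring
    omega
  have h5 : (m + 1) * ((m + 1) * l + 1) + 1 - l = (m + 2) * (m * l + 1) := by
    have : (m + 1) * ((m + 1) * l + 1) + 1 = (m + 2) * (m * l + 1) + l := by ring
    omega
  rw [h4, h5] at h1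
  exact Nat.eq_of_mul_eq_mul_right (by positivity) h1

/-- Duality: all pairs of points are good if and only if all pairs of blocks are good. -/
theorem all_flip (h : Des I n l) (hn : 1 ≤ n) :
    (∀ e f, e ≠ f → Good (flip I) n e f) ↔ ∀ x y, x ≠ y → Good I n x y := by
  constructor
  · intro h1 x y hxy
    exact good_flip h.dual hn hxy fun e f _ _ hef => h1 e f hef
  · intro h1 e f hef
    exact good_flip h hn hef fun x y _ _ hxy => h1 x y hxy

end

end Pool.Agent.V7H30.DG
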