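import Pool.Agent.V7H30.DG.Perfs
import Pool.Agent.V7H30.DW.PrimePow

/-!
# Prime powers, and three dimensions
-/

set_option autoImplicit false

namespace Pool.Agent.V7H30.DG

open Finset Pool.Agent.V7H30.DW

noncomputable section

theorem g_eq (n j : ℕ) : g n j = ∑ i ∈ range j, n ^ i := by
  induction j with
  | zero => simp [g]
  | succ j ih =>
    rw [g_succ, ih, sum_range_succ', mul_sum]
    simp only [pow_succ, pow_zero]
    congr 1
    refine sum_congr rfl fun i _ => ?_
    ring

theorem to_three {P B : Type} [Fintype P] [Fintype B] {I : P → B → Prop} {n : ℕ}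
    (h : Des I n (g n 2)) : DW.Des I n := by
  have e0 : g n 2 = n + 1 := by simp [g]
  have e1 : n * (n * g n 2 + 1) + 1 = n ^ 3 + n ^ 2 + n + 1 := by rw [e0]; ring
  have e2 : n * g n 2 + 1 = n ^ 2 + n + 1 := by rw [e0]; ring
  have h' : Sym I (n * (n * g n 2 + 1) + 1) (n * g n 2 + 1) (g n 2) := h
  rw [e1, e2, e0] at h'
  exact h'

/-- If all pairs are good, then the order is a prime power. -/
theorem isPrimePow_gen {n : ℕ} (hn : 2 ≤ n) (j : ℕ) : ∀ {P B : Type} [Fintype P] [Fintype B]
    {I : P → B → Prop}, Des I n (g n (j + 2)) → (∀ x y, x ≠ y → Good I n x y) →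
    IsPrimePow n := by
  classical
  induction j with
  | zero =>
    intro P B _ _ I h hall
    exact DW.isPrimePow_of_all (to_three h) (fun x y hxy => hall x y hxy) hn
  | succ j ih =>
    intro P B _ _ I h hall
    have h' : Des I n (n * g n (j + 2) + 1) := h
    have hr : 1 ≤ g n (j + 2) := g_pos n (j + 1)
    have hcB : 0 < Fintype.card B := by
      rw [h'.cardB]
      omega
    obtain ⟨e⟩ : Nonempty B := Fintype.card_pos_iff.1 hcB
    obtain ⟨p, hp⟩ : ∃ p, p ∉ pts I e := by
      by_contra hcon
      push Not at hcon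
      have h4 := card_le_card (fun p _ => hcon p : (univ : Finset P) ⊆ pts I e)
      rw [card_univ, h'.cardP, h'.bl] at h4
      have h5 := Nat.mul_le_mul_right (n * (n * g n (j + 2) + 1) + 1) hn
      omega
    have hpe : ¬ I p e := fun hc => hp (mem_pts.2 hc)
    exact ih (des_sub h' (by omega) hr hpe fun y hy => hall p y hy)
      fun x y hxy => perf_sub h' (by omega) hr hpe (fun y hy => hall p y hy)
        (fun y hy => hall x.1 y hy) y hxy

end

end Pool.Agent.V7H30.DG
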