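import Pool.Agent.V7H30.DW.Base

/-!
# Lines in symmetric designs with the parameters of projective spaces
-/

set_option autoImplicit false

namespace Pool.Agent.V7H30.DG

open Finset Pool.Agent.V7H30.DW

noncomputable section

/-- Symmetric designs with `k = n l + 1` and `v = n k + 1`. -/
abbrev Des {P B : Type} [Fintype P] [Fintype B] (I : P → B → Prop) (n l : ℕ) : Prop :=
  Sym I (n * (n * l + 1) + 1) (n * l + 1) l

open Classical in
/-- the intersection of the blocks through two points -/
def line {P B : Type} [Fintype P] (I : P → B → Prop) (x y : P) : Finset P :=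
  univ.filter fun z => ∀ b, I x b → I y b → I z b

/-- Two points are joined by a line of `n + 1` points. -/
def Good {P B : Type} [Fintype P] (I : P → B → Prop) (n : ℕ) (x y : P) : Prop :=
  x ≠ y ∧ (line I x y).card = n + 1

/-- A point all of whose lines have `n + 1` points. -/
def Perf {P B : Type} [Fintype P] (I : P → B → Prop) (n : ℕ) (p : P) : Prop :=
  ∀ y, p ≠ y → Good I n p y

variable {P B : Type} [Fintype P] [Fintype B] {I : P → B → Prop} {n l : ℕ}

omit [Fintype B] in
theorem mem_line {x y z : P} : z ∈ line I x y ↔ ∀ b, I x b → I y b → I z b := by simp [line]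

omit [Fintype B] in
theorem left_mem (x y : P) : x ∈ line I x y := mem_line.2 fun _ h _ => h

omit [Fintype B] in
theorem right_mem (x y : P) : y ∈ line I x y := mem_line.2 fun _ _ h => h

omit [Fintype B] in
theorem line_comm (x y : P) : line I x y = line I y x := by
  ext z
  rw [mem_line, mem_line]
  exact ⟨fun h b h1 h2 => h b h2 h1, fun h b h1 h2 => h b h2 h1⟩

omit [Fintype B] in
theorem Good.symm {x y : P} (h : Good I n x y) : Good I n y x :=
  ⟨h.1.symm, by rw [line_comm]; exact h.2⟩

omit [Fintype B] in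
theorem line_sub {x y : P} {b : B} (h1 : I x b) (h2 : I y b) : line I x y ⊆ pts I b :=
  fun _ hz => mem_pts.2 (mem_line.1 hz b h1 h2)

open Classical in
/-- A set of `n + 1` points which is met by no block in more than one and less than `n + 1`
points is met by all the blocks. -/
theorem key (h : Des I n l) {S : Finset P} (hS : S.card = n + 1)
    (hc : ∀ b, (S ∩ pts I b).card ≤ 1 ∨ (S ∩ pts I b).card = n + 1) (b : B) :
    (S ∩ pts I b).Nonempty := by
  by_contra hne
  rw [not_nonempty_iff_eq_empty] at hne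
  have h1 := h.sum1 S
  have h2 := h.sum2 S
  rw [hS] at h1 h2
  have h3 : ∑ b, (((S ∩ pts I b).card : ℤ) - 1) * (((S ∩ pts I b).card : ℤ) - (n + 1)) = 0 := by
    have h4 : ∀ b, (((S ∩ pts I b).card : ℤ) - 1) * (((S ∩ pts I b).card : ℤ) - (n + 1)) =
        ((S ∩ pts I b).card : ℤ) ^ 2 - (n + 2) * ((S ∩ pts I b).card : ℤ) + (n + 1) := by
      intro b
      ring
    rw [sum_congr rfl fun b _ => h4 b, sum_add_distrib, sum_sub_distrib, ← mul_sum, sum_const,
      card_univ, h.cardB, nsmul_eq_mul]
    have h1' : ∑ b, ((S ∩ pts I b).card : ℤ) = (n + 1) * (n * l + 1) := by exact_mod_cast h1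
    have h2' : ∑ b, ((S ∩ pts I b).card : ℤ) ^ 2 + (n + 1) * l =
        (n + 1) * (n * l + 1) + (n + 1) ^ 2 * l := by exact_mod_cast h2
    rw [h1']
    push_cast
    linear_combination h2'
  have h4 := (sum_eq_zero_iff_of_nonneg (fun b _ => ?_)).1 h3 b (mem_univ b)
  · rw [hne, card_empty] at h4
    push_cast at h4
    have : ((n : ℤ) + 1) = 0 := by linarith
    omega
  · rcases hc b with h5 | h5
    · rcases Nat.le_one_iff_eq_zero_or_eq_one.1 h5 with h6 | h6
      · rw [h6]
        push_cast
        have : (0 : ℤ) ≤ n := Int.natCast_nonneg n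
        linarith
      · rw [h6]
        simp
    · rw [h5]
      push_cast
      simp

open Classical in
theorem thr_eq (h : Des I n l) {x y z w : P} (hxy : x ≠ y) (hz : z ∈ line I x y)
    (hw : w ∈ line I x y) (hzw : z ≠ w) : thr I x ∩ thr I y = thr I z ∩ thr I w := by
  refine eq_of_subset_of_card_le ?_ ?_
  · intro b hb
    rw [mem_inter, mem_thr, mem_thr] at hb ⊢
    exact ⟨mem_line.1 hz b hb.1 hb.2, mem_line.1 hw b hb.1 hb.2⟩
  · rw [h.pp x y hxy, h.pp z w hzw]

theorem thr_iff (h : Des I n l) {x y z w : P} (hxy : x ≠ y) (hz : z ∈ line I x y)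
    (hw : w ∈ line I x y) (hzw : z ≠ w) (b : B) : (I x b ∧ I y b) ↔ (I z b ∧ I w b) := by
  classical
  have h1 := congrArg (fun s => b ∈ s) (thr_eq h hxy hz hw hzw)
  simp only [mem_inter, mem_thr, eq_iff_iff] at h1
  exact h1

theorem line_eq (h : Des I n l) {x y z w : P} (hxy : x ≠ y) (hz : z ∈ line I x y)
    (hw : w ∈ line I x y) (hzw : z ≠ w) : line I z w = line I x y := by
  ext t
  rw [mem_line, mem_line]
  refine forall_congr' fun b => ?_
  have h1 := thr_iff h hxy hz hw hzw b
  tauto

theorem Good.of_mem (h : Des I n l) {x y z w : P} (hg : Good I n x y) (hz : z ∈ line I x y)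
    (hw : w ∈ line I x y) (hzw : z ≠ w) : Good I n z w :=
  ⟨hzw, by rw [line_eq h hg.1 hz hw hzw]; exact hg.2⟩

/-- A block with two points of a line contains the line. -/
theorem sub_of_two (h : Des I n l) {x y z w : P} (hxy : x ≠ y) (hz : z ∈ line I x y)
    (hw : w ∈ line I x y) (hzw : z ≠ w) {b : B} (h1 : I z b) (h2 : I w b) : I x b ∧ I y b :=
  (thr_iff h hxy hz hw hzw b).2 ⟨h1, h2⟩

open Classical in
theorem card_inter_line (h : Des I n l) {x y : P} (hxy : x ≠ y) {b : B} (hb : ¬ (I x b ∧ I y b)) :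
    (line I x y ∩ pts I b).card ≤ 1 := by
  by_contra hlt
  push Not at hlt
  obtain ⟨z, hz, w, hw, hzw⟩ := one_lt_card.1 hlt
  rw [mem_inter, mem_pts] at hz hw
  exact hb (sub_of_two h hxy hz.1 hw.1 hzw hz.2 hw.2)

/-- Every block meets every good line. -/
theorem exists_meet (h : Des I n l) {x y : P} (hg : Good I n x y) (b : B) :
    ∃ z ∈ line I x y, I z b := by
  classical
  have hc : ∀ b, (line I x y ∩ pts I b).card ≤ 1 ∨ (line I x y ∩ pts I b).card = n + 1 := by
    intro b
    by_cases h1 : I x b ∧ I y b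
    · right
      rw [inter_eq_left.2 (line_sub h1.1 h1.2), hg.2]
    · exact Or.inl (card_inter_line h hg.1 h1)
  obtain ⟨z, hz⟩ := key h hg.2 hc b
  rw [mem_inter, mem_pts] at hz
  exact ⟨z, hz⟩

open Classical in
/-- A block that does not contain a good line meets it in one point. -/
theorem card_meet (h : Des I n l) {x y : P} (hg : Good I n x y) {b : B}
    (hb : ¬ (I x b ∧ I y b)) : (line I x y ∩ pts I b).card = 1 := by
  obtain ⟨z, hz, hzb⟩ := exists_meet h hg b
  have h1 : 0 < (line I x y ∩ pts I b).card := card_pos.2 ⟨z, mem_inter.2 ⟨hz, mem_pts.2 hzb⟩⟩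
  have h2 := card_inter_line h hg.1 hb
  omega

open Classical in
/-- Lines have at most `n + 1` points. -/
theorem card_line_le (h : Des I n l) (hn : 1 ≤ n) {x y : P} (hxy : x ≠ y) :
    (line I x y).card ≤ n + 1 := by
  have h1 := h.sum1 (line I x y)
  rw [← sum_sdiff (subset_univ (thr I x ∩ thr I y))] at h1
  have h2 : ∑ b ∈ thr I x ∩ thr I y, (line I x y ∩ pts I b).card = l * (line I x y).card := by
    rw [← h.pp x y hxy, card_eq_sum_ones, sum_mul]
    refine sum_congr rfl fun b hb => ?_
    rw [mem_inter, mem_thr, mem_thr] at hb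
    rw [inter_eq_left.2 (line_sub hb.1 hb.2), one_mul]
  have h3 : ∑ b ∈ univ \ (thr I x ∩ thr I y), (line I x y ∩ pts I b).card ≤
      ∑ _b ∈ univ \ (thr I x ∩ thr I y), 1 := by
    apply sum_le_sum
    intro b hb
    rw [mem_sdiff, mem_inter, mem_thr, mem_thr] at hb
    exact card_inter_line h hxy hb.2
  rw [sum_const, smul_eq_mul, mul_one, card_sdiff_of_subset (subset_univ _), card_univ, h.cardB,
    h.pp x y hxy] at h3
  rw [h2] at h1
  set s := (line I x y).card with hs
  obtain ⟨m, rfl⟩ : ∃ m, n = m + 1 := ⟨n - 1, by omega⟩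
  -- `s (k - l) ≤ v - l`
  have h4 : s * ((m + 1) * l + 1) ≤ (((m + 1) * ((m + 1) * l + 1) + 1) - l) + l * s := by omega
  have h5 : ((m + 1) * ((m + 1) * l + 1) + 1) - l = (m + 2) * (m * l + 1) := by
    have h6 : (m + 1) * ((m + 1) * l + 1) + 1 = (m + 2) * (m * l + 1) + l := by ring
    omega
  rw [h5] at h4
  have h6 : s * (m * l + 1) ≤ (m + 2) * (m * l + 1) := by nlinarith
  exact Nat.le_of_mul_le_mul_right h6 (by positivity)

open Classical in
theorem dc (F : Finset B) (A : Finset P) :
    ∑ b ∈ F, (A ∩ pts I b).card = ∑ x ∈ A, (F ∩ thr I x).card := by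
  have h1 : ∀ b, (A ∩ pts I b).card = ∑ x ∈ A, if I x b then 1 else 0 := fun b =>
    card_inter_pts A b
  have h2 : ∀ x, (F ∩ thr I x).card = ∑ b ∈ F, if I x b then 1 else 0 := by
    intro x
    rw [← card_filter]
    congr 1
    ext b
    simp
  rw [sum_congr rfl fun b _ => h1 b, sum_congr rfl fun x _ => h2 x, sum_comm]

open Classical in
/-- The number of blocks through a good line and a further point. -/
theorem card_blk (h : Des I n l) {x y z : P} (hg : Good I n x y) (hz : z ∉ line I x y) :
    n * (thr I x ∩ thr I y ∩ thr I z).card + 1 = l := by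
  have h1 := dc (I := I) (thr I z) (line I x y)
  have h2 : ∑ w ∈ line I x y, (thr I z ∩ thr I w).card = (n + 1) * l := by
    rw [sum_congr rfl fun w hw => h.pp z w (by rintro rfl; exact hz hw), sum_const, hg.2,
      smul_eq_mul]
  have h3 : ∑ b ∈ thr I z, (line I x y ∩ pts I b).card =
      ∑ b ∈ thr I z, (1 + if I x b ∧ I y b then n else 0) := by
    refine sum_congr rfl fun b _ => ?_
    by_cases h4 : I x b ∧ I y b
    · rw [if_pos h4, inter_eq_left.2 (line_sub h4.1 h4.2), hg.2, Nat.add_comm]
    · rw [if_neg h4, card_meet h hg h4]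
  rw [h2, h3, sum_add_distrib, sum_const, h.pt, smul_eq_mul, mul_one, ← sum_filter, sum_const,
    smul_eq_mul] at h1
  have h4 : (thr I z).filter (fun b => I x b ∧ I y b) = thr I x ∩ thr I y ∩ thr I z := by
    ext b
    rw [mem_filter, mem_inter, mem_inter, mem_thr, mem_thr, mem_thr]
    tauto
  rw [h4] at h1
  nlinarith

end

end Pool.Agent.V7H30.DG
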