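import Pool.Agent.V7H30.DG.Perfs

/-!
# The bad partners of a point
-/

set_option autoImplicit false

namespace Pool.Agent.V7H30.DG

open Finset Pool.Agent.V7H30.DW

noncomputable section

variable {P B : Type} [Fintype P] [Fintype B] {I : P → B → Prop} {n r : ℕ}

open Classical in
/-- the points of `e` which are not joined regularly to all the others by the traces of the blocks
through `p` -/
def irr (I : P → B → Prop) (r : ℕ) (p : P) (e : B) : Finset P :=
  (pts I e).filter fun u => ∃ v ∈ pts I e, v ≠ u ∧ (thr I p ∩ thr I u ∩ thr I v).card ≠ r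

open Classical in
theorem not_irr {p u : P} {e : B} (hu : u ∈ pts I e) (hui : u ∉ irr I r p e) {v : P}
    (hv : v ∈ pts I e) (hvu : v ≠ u) : (thr I p ∩ thr I u ∩ thr I v).card = r := by
  by_contra h1
  exact hui (mem_filter.2 ⟨hu, v, hv, hvu, h1⟩)

variable (h : Des I n (n * r + 1))

include h

open Classical in
theorem sum_join {p u : P} {e : B} (hpe : ¬ I p e) (hu : I u e) :
    ∑ v ∈ (pts I e).erase u, (thr I p ∩ thr I u ∩ thr I v).card = (n * r + 1) * (n * r) := by
  have hpu : p ≠ u := by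
    rintro rfl
    exact hpe hu
  have h1 : ∑ b ∈ thr I p ∩ thr I u, ((pts I e).erase u ∩ pts I b).card =
      ∑ _b ∈ thr I p ∩ thr I u, n * r := by
    refine sum_congr rfl fun b hb => ?_
    rw [mem_inter, mem_thr, mem_thr] at hb
    rw [erase_inter, card_erase_of_mem (mem_inter.2 ⟨mem_pts.2 hu, mem_pts.2 hb.2⟩),
      h.bb e b (ne_of_not hpe hb.1), Nat.add_sub_cancel]
  rw [← dc, h1, sum_const, h.pp p u hpu, smul_eq_mul]

open Classical in
theorem exists_less {p u : P} {e : B} (hpe : ¬ I p e) (hu : u ∈ irr I r p e) :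
    ∃ v ∈ pts I e, v ≠ u ∧ (thr I p ∩ thr I u ∩ thr I v).card < r := by
  by_contra hcon
  push Not at hcon
  have hue : I u e := mem_pts.1 (mem_filter.1 hu).1
  have h1 := sum_join h hpe hue
  have h2 : ((pts I e).erase u).card = (n * r + 1) * n := by
    rw [card_erase_of_mem (mem_pts.2 hue), h.bl, Nat.add_sub_cancel, Nat.mul_comm]
  have h3 : ∀ v ∈ (pts I e).erase u, r ≤ (thr I p ∩ thr I u ∩ thr I v).card := by
    intro v hv
    rw [mem_erase] at hv
    exact hcon v hv.2 hv.1
  have h4 : ∀ v ∈ (pts I e).erase u, r = (thr I p ∩ thr I u ∩ thr I v).card := by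
    refine (sum_eq_sum_iff_of_le h3).1 ?_
    rw [h1, sum_const, h2, smul_eq_mul]
    ring
  obtain ⟨_, v, hv, hvu, hne⟩ := mem_filter.1 hu
  exact hne (h4 v (mem_erase.2 ⟨hvu, hv⟩)).symm

open Classical in
theorem exists_irr {p u : P} {e : B} (hpe : ¬ I p e) (hu : u ∈ irr I r p e) {f : B} (hpf : I p f)
    (huf : I u f) : ∃ v ∈ irr I r p e, v ≠ u ∧ I v f := by
  by_contra hcon
  push Not at hcon
  have hue : I u e := mem_pts.1 (mem_filter.1 hu).1
  have hef : e ≠ f := ne_of_not hpe hpf
  have hreg : ∀ v ∈ pts I e ∩ pts I f, v ≠ u → v ∉ irr I r p e := by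
    intro v hv hvu hvi
    rw [mem_inter, mem_pts, mem_pts] at hv
    exact hcon v hvi hvu hv.2
  obtain ⟨v₀, hv₀, hv₀u, hless⟩ := exists_less h hpe hu
  have hu' : u ∈ pts I e ∩ pts I f := mem_inter.2 ⟨mem_pts.2 hue, mem_pts.2 huf⟩
  have hv₀f : ¬ I v₀ f := by
    intro hc
    have hv₀' : v₀ ∈ pts I e ∩ pts I f := mem_inter.2 ⟨hv₀, mem_pts.2 hc⟩
    have h1 := not_irr hv₀ (hreg v₀ hv₀' hv₀u) (mem_pts.2 hue) hv₀u.symm
    rw [inter_right_comm] at h1
    omega
  have hpv₀ : p ≠ v₀ := by
    rintro rfl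
    exact hpe (mem_pts.1 hv₀)
  set T := pts I e ∩ pts I f with hT
  have hTc : T.card = n * r + 1 := h.bb e f hef
  have hpT : ∀ v ∈ T, p ≠ v := by
    rintro v hv rfl
    exact hpe (mem_pts.1 (mem_inter.1 hv).1)
  -- the pairs in `T` are regular
  have hpair : ∀ v ∈ T, ∀ w ∈ T, v ≠ w → (thr I p ∩ thr I v ∩ thr I w).card = r := by
    intro v hv w hw hvw
    by_cases hvu : v = u
    · have hwu : w ≠ u := by
        rintro rfl
        exact hvw hvu
      rw [inter_right_comm]
      exact not_irr (mem_inter.1 hw).1 (hreg w hw hwu) (mem_inter.1 hv).1 hvw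
    · exact not_irr (mem_inter.1 hv).1 (hreg v hv hvu) (mem_inter.1 hw).1 hvw.symm
  -- sums over the blocks through `p` other than `f`
  have hfp : f ∈ thr I p := mem_thr.2 hpf
  have s0 : ((thr I p).erase f).card = n * (n * r + 1) := by
    rw [card_erase_of_mem hfp, h.pt, Nat.add_sub_cancel]
  have s1 : ∑ g ∈ (thr I p).erase f, (T ∩ pts I g).card = (n * r + 1) * (n * r) := by
    rw [dc]
    have h1 : ∀ v ∈ T, ((thr I p).erase f ∩ thr I v).card = n * r := by
      intro v hv
      rw [erase_inter, card_erase_of_mem (mem_inter.2 ⟨hfp, mem_thr.2 (mem_pts.1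
        (mem_inter.1 hv).2)⟩), h.pp p v (hpT v hv), Nat.add_sub_cancel]
    rw [sum_congr rfl h1, sum_const, hTc, smul_eq_mul]
  have s2 : ∑ g ∈ (thr I p).erase f, (T ∩ pts I g).card ^ 2 = (n * r + 1) * (n * r) * r := by
    have h1 : ∀ g, (T ∩ pts I g).card ^ 2 = ∑ v ∈ T, ∑ w ∈ T,
        (if I v g then 1 else 0) * (if I w g then 1 else 0) := by
      intro g
      rw [card_inter_pts, sq, sum_mul_sum]
    have h2 : ∀ v w, ∑ g ∈ (thr I p).erase f, (if I v g then 1 else 0) *
        (if I w g then 1 else 0) = ((thr I p).erase f ∩ (thr I v ∩ thr I w)).card := by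
      intro v w
      have h3 : ∀ g, (if I v g then 1 else 0) * (if I w g then 1 else 0) =
          if I v g ∧ I w g then 1 else 0 := by
        intro g
        by_cases h1 : I v g <;> by_cases h2 : I w g <;> simp [h1, h2]
      rw [sum_congr rfl fun g _ => h3 g, ← card_filter]
      congr 1
      ext g
      simp only [mem_filter, mem_inter, mem_thr]
    rw [sum_congr rfl fun g _ => h1 g, sum_comm]
    have h4 : ∀ v ∈ T, ∑ g ∈ (thr I p).erase f, ∑ w ∈ T, (if I v g then 1 else 0) *
        (if I w g then 1 else 0) = n * r * r := by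
      intro v hv
      rw [sum_comm, sum_congr rfl fun w _ => h2 v w, ← add_sum_erase _ _ hv, inter_self]
      have hvf : I v f := mem_pts.1 (mem_inter.1 hv).2
      have h5 : ((thr I p).erase f ∩ thr I v).card = n * r := by
        rw [erase_inter, card_erase_of_mem (mem_inter.2 ⟨hfp, mem_thr.2 hvf⟩),
          h.pp p v (hpT v hv), Nat.add_sub_cancel]
      have h6 : ∀ w ∈ T.erase v, ((thr I p).erase f ∩ (thr I v ∩ thr I w)).card = r - 1 := by
        intro w hw
        rw [mem_erase] at hw
        have hwf : I w f := mem_pts.1 (mem_inter.1 hw.2).2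
        rw [erase_inter, card_erase_of_mem (mem_inter.2 ⟨hfp, mem_inter.2 ⟨mem_thr.2 hvf,
          mem_thr.2 hwf⟩⟩), ← inter_assoc, hpair v hv w hw.2 hw.1.symm]
      rw [h5, sum_congr rfl h6, sum_const, card_erase_of_mem hv, hTc, Nat.add_sub_cancel,
        smul_eq_mul]
      rcases Nat.eq_zero_or_pos r with h0 | h0
      · rw [h0]
        simp
      · obtain ⟨r', rfl⟩ : ∃ r', r = r' + 1 := ⟨r - 1, by omega⟩
        rw [Nat.add_sub_cancel]
        ring
    rw [sum_congr rfl h4, sum_const, hTc, smul_eq_mul]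
    ring
  have s3 : ∑ g ∈ (thr I p).erase f, (((T ∩ pts I g).card : ℤ) - r) ^ 2 = 0 := by
    have h1 : ∀ g, (((T ∩ pts I g).card : ℤ) - r) ^ 2 = ((T ∩ pts I g).card : ℤ) ^ 2 -
        2 * r * ((T ∩ pts I g).card : ℤ) + r ^ 2 := by
      intro g
      ring
    have s1' : ∑ g ∈ (thr I p).erase f, ((T ∩ pts I g).card : ℤ) = (n * r + 1) * (n * r) := by
      exact_mod_cast s1
    have s2' : ∑ g ∈ (thr I p).erase f, ((T ∩ pts I g).card : ℤ) ^ 2 =
        (n * r + 1) * (n * r) * r := by
      exact_mod_cast s2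
    rw [sum_congr rfl fun g _ => h1 g, sum_add_distrib, sum_sub_distrib, ← mul_sum, sum_const, s0,
      s1', s2', nsmul_eq_mul]
    push_cast
    ring
  have s4 : ∀ g ∈ (thr I p).erase f, (T ∩ pts I g).card = r := by
    intro g hg
    have h1 := (sum_eq_zero_iff_of_nonneg fun b _ => sq_nonneg _).1 s3 g hg
    have h2 : ((T ∩ pts I g).card : ℤ) - r = 0 := by
      exact pow_eq_zero_iff (two_ne_zero) |>.1 h1
    omega
  -- the blocks through `p` and `v₀`
  have h1 := dc (I := I) (thr I p ∩ thr I v₀) T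
  have h2 : ∑ g ∈ thr I p ∩ thr I v₀, (T ∩ pts I g).card = (n * r + 1) * r := by
    rw [← h.pp p v₀ hpv₀, card_eq_sum_ones, sum_mul]
    refine sum_congr rfl fun g hg => ?_
    rw [mem_inter, mem_thr, mem_thr] at hg
    rw [one_mul]
    apply s4
    rw [mem_erase, mem_thr]
    refine ⟨?_, hg.1⟩
    rintro rfl
    exact hv₀f hg.2
  have h3 : ∑ v ∈ T, (thr I p ∩ thr I v₀ ∩ thr I v).card < (n * r + 1) * r := by
    rw [← add_sum_erase _ _ hu', inter_right_comm]
    have h4 : ∑ v ∈ T.erase u, (thr I p ∩ thr I v₀ ∩ thr I v).card = ∑ v ∈ T.erase u, r := by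
      apply sum_congr rfl
      intro v hv
      rw [mem_erase] at hv
      rw [inter_right_comm]
      refine not_irr (mem_inter.1 hv.2).1 (hreg v hv.2 hv.1) hv₀ ?_
      rintro rfl
      exact hv₀f (mem_pts.1 (mem_inter.1 hv.2).2)
    rw [h4, sum_const, card_erase_of_mem hu', hTc, Nat.add_sub_cancel, smul_eq_mul]
    have h5 : (n * r + 1) * r = r + n * r * r := by ring
    omega
  omega

open Classical in
/-- **Near-designs.** If not all points are regular, then at least `n + 2` are irregular. -/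
theorem card_irr {p : P} {e : B} (hpe : ¬ I p e) (hne : (irr I r p e).Nonempty) :
    n + 2 ≤ (irr I r p e).card := by
  obtain ⟨u, hu⟩ := hne
  have hue := (mem_filter.1 hu).1
  have hpu : p ≠ u := by
    rintro rfl
    exact hpe (mem_pts.1 hue)
  have h1 : ∑ _f ∈ thr I p ∩ thr I u, 1 ≤
      ∑ f ∈ thr I p ∩ thr I u, (((irr I r p e).erase u) ∩ pts I f).card := by
    apply sum_le_sum
    intro f hf
    rw [mem_inter, mem_thr, mem_thr] at hf
    obtain ⟨v, hv, hvu, hvf⟩ := exists_irr h hpe hu hf.1 hf.2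
    exact card_pos.2 ⟨v, mem_inter.2 ⟨mem_erase.2 ⟨hvu, hv⟩, mem_pts.2 hvf⟩⟩
  rw [dc, sum_const, h.pp p u hpu, smul_eq_mul, mul_one] at h1
  have h2 := sum_join h hpe (mem_pts.1 hue)
  have hsub : (irr I r p e).erase u ⊆ (pts I e).erase u :=
    erase_subset_erase _ (filter_subset _ _)
  rw [← sum_sdiff hsub] at h2
  have h3 : ∑ v ∈ (pts I e).erase u \ (irr I r p e).erase u,
      (thr I p ∩ thr I u ∩ thr I v).card =
      ∑ v ∈ (pts I e).erase u \ (irr I r p e).erase u, r := by
    apply sum_congr rfl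
    intro v hv
    rw [mem_sdiff, mem_erase, mem_erase] at hv
    rw [inter_right_comm]
    exact not_irr hv.1.2 (fun hc => hv.2 ⟨hv.1.1, hc⟩) hue hv.1.1.symm
  have hle : (irr I r p e).card ≤ n * (n * r + 1) + 1 := by
    rw [← h.bl e]
    exact card_le_card (filter_subset _ _)
  rw [h3, sum_const, smul_eq_mul, card_sdiff_of_subset hsub, card_erase_of_mem hue, h.bl,
    card_erase_of_mem hu, Nat.add_sub_cancel] at h2
  have hpos : 0 < (irr I r p e).card := card_pos.2 ⟨u, hu⟩
  obtain ⟨s, hs⟩ : ∃ s, (irr I r p e).card = s + 1 := ⟨(irr I r p e).card - 1, by omega⟩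
  rw [hs, Nat.add_sub_cancel] at h2
  rw [hs] at hle
  obtain ⟨t, ht⟩ : ∃ t, n * (n * r + 1) = s + t := ⟨n * (n * r + 1) - s, by omega⟩
  have h4 : n * (n * r + 1) - s = t := by omega
  rw [h4] at h2
  -- `s r ≥ n r + 1`
  have h5 : n * r + 1 ≤ s * r := by
    have h6 : (n * (n * r + 1)) * r = s * r + t * r := by rw [ht]; ring
    have h7 : (n * (n * r + 1)) * r = (n * r + 1) * (n * r) := by ring
    omega
  rw [hs]
  by_contra hlt
  have h6 : s ≤ n := by omega
  have h7 : s * r ≤ n * r := Nat.mul_le_mul_right _ h6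
  omega

theorem not_good_of_irr (hn : 1 ≤ n) {p u : P} {e : B} (hpe : ¬ I p e) (hu : u ∈ irr I r p e) :
    ¬ Good I n p u := by
  classical
  intro hg
  obtain ⟨hue, v, hv, hvu, hne⟩ := mem_filter.1 hu
  apply hne
  have hv' : v ∉ line I p u := not_mem_line h hpe (mem_pts.1 hue) (mem_pts.1 hv) hvu.symm
  have h1 := card_blk h hg hv'
  have h2 : n * (thr I p ∩ thr I u ∩ thr I v).card = n * r := by omega
  exact Nat.eq_of_mul_eq_mul_left (by omega) h2

open Classical in
/-- An irregular block for a bad pair. -/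
theorem exists_irr_block (hn : 1 ≤ n) {p u : P} (hpu : p ≠ u) (hbad : ¬ Good I n p u) :
    ∃ e, ¬ I p e ∧ u ∈ irr I r p e := by
  obtain ⟨z, hz, hzr⟩ : ∃ z, z ∉ line I p u ∧ (thr I p ∩ thr I u ∩ thr I z).card ≠ r := by
    by_contra hcon
    push Not at hcon
    apply hbad
    refine ⟨hpu, ?_⟩
    have h1 := dc (I := I) (thr I p ∩ thr I u) univ
    have h2 : ∑ b ∈ thr I p ∩ thr I u, ((univ : Finset P) ∩ pts I b).card =
        (n * r + 1) * (n * (n * r + 1) + 1) := by
      have h3 : ∀ b ∈ thr I p ∩ thr I u, ((univ : Finset P) ∩ pts I b).card =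
          n * (n * r + 1) + 1 := by
        intro b _
        rw [univ_inter, h.bl]
      rw [sum_congr rfl h3, sum_const, h.pp p u hpu, smul_eq_mul]
    rw [h2, ← sum_sdiff (subset_univ (line I p u))] at h1
    have h3 : ∑ x ∈ univ \ line I p u, (thr I p ∩ thr I u ∩ thr I x).card =
        ∑ x ∈ univ \ line I p u, r := by
      refine sum_congr rfl fun x hx => hcon x (mem_sdiff.1 hx).2
    have h4 : ∑ x ∈ line I p u, (thr I p ∩ thr I u ∩ thr I x).card =
        ∑ x ∈ line I p u, (n * r + 1) := by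
      refine sum_congr rfl fun x hx => ?_
      rw [← h.pp p u hpu]
      congr 1
      rw [inter_eq_left]
      intro b hb
      rw [mem_inter, mem_thr, mem_thr] at hb
      exact mem_thr.2 (mem_line.1 hx b hb.1 hb.2)
    rw [h3, h4, sum_const, sum_const, card_sdiff_of_subset (subset_univ _), card_univ, h.cardP,
      smul_eq_mul, smul_eq_mul] at h1
    have hle : (line I p u).card ≤ n + 1 := card_line_le h hn hpu
    set s := (line I p u).card with hs
    obtain ⟨t, ht⟩ : ∃ t, n * (n * (n * r + 1) + 1) + 1 = s + t := by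
      refine ⟨n * (n * (n * r + 1) + 1) + 1 - s, ?_⟩
      have : n ≤ n * (n * (n * r + 1) + 1) := Nat.le_mul_of_pos_right _ (by omega)
      omega
    have h5 : n * (n * (n * r + 1) + 1) + 1 - s = t := by omega
    rw [h5] at h1
    obtain ⟨m, rfl⟩ : ∃ m, n = m + 1 := ⟨n - 1, by omega⟩
    have h6 : s * (m * r + 1) = (m + 2) * (m * r + 1) := by
      have h7 : ((m : ℤ) + 1) * ((m + 1) * ((m + 1) * r + 1) + 1) + 1 = s + t := by
        exact_mod_cast ht
      have h8 : (((m : ℤ) + 1) * r + 1) * ((m + 1) * ((m + 1) * r + 1) + 1) =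
          t * r + s * ((m + 1) * r + 1) := by
        exact_mod_cast h1
      have h9 : (s : ℤ) * (m * r + 1) = (m + 2) * (m * r + 1) := by
        have h10 : (t : ℤ) = ((m : ℤ) + 1) * ((m + 1) * ((m + 1) * r + 1) + 1) + 1 - s := by
          linarith
        rw [h10] at h8
        linear_combination (-1 : ℤ) * h8
      exact_mod_cast h9
    exact Nat.eq_of_mul_eq_mul_right (by positivity) h6
  have hzu : z ≠ u := by
    rintro rfl
    exact hz (right_mem _ _)
  -- a block through `u` and `z` but not through `p`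
  obtain ⟨e, hue, hze, hpe⟩ : ∃ e, I u e ∧ I z e ∧ ¬ I p e := by
    by_contra hcon
    push Not at hcon
    apply hz
    rw [mem_line]
    intro b hpb hub
    have h1 : thr I u ∩ thr I z ⊆ thr I p ∩ thr I u := by
      intro c hc
      rw [mem_inter, mem_thr, mem_thr] at hc
      exact mem_inter.2 ⟨mem_thr.2 (hcon c hc.1 hc.2), mem_thr.2 hc.1⟩
    have h2 : thr I u ∩ thr I z = thr I p ∩ thr I u :=
      eq_of_subset_of_card_le h1 (by rw [h.pp p u hpu, h.pp u z hzu.symm])
    have h3 : b ∈ thr I u ∩ thr I z := by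
      rw [h2, mem_inter, mem_thr, mem_thr]
      exact ⟨hpb, hub⟩
    exact mem_thr.1 (mem_inter.1 h3).2
  exact ⟨e, hpe, mem_filter.2 ⟨mem_pts.2 hue, z, mem_pts.2 hze, hzu, hzr⟩⟩

open Classical in
/-- The number of good partners of a point, compared with those in a block. -/
theorem card_good {p : P} {e : B} (hpe : ¬ I p e) :
    (univ.filter fun x => Good I n p x).card = n * ((pts I e).filter fun x => Good I n p x).card := by
  have h1 := sum_card_bipartiteAbove_eq_sum_card_bipartiteBelow
    (s := univ.filter fun x => Good I n p x) (t := (pts I e).filter fun x => Good I n p x)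
    fun x u => u ∈ line I p x
  have h2 : ∀ x ∈ univ.filter (fun x => Good I n p x), (bipartiteAbove (fun x u => u ∈ line I p x)
      ((pts I e).filter fun x => Good I n p x) x).card = 1 := by
    intro x hx
    have hg : Good I n p x := (mem_filter.1 hx).2
    rw [← card_meet h hg (b := e) fun hc => hpe hc.1]
    congr 1
    ext u
    simp only [bipartiteAbove, mem_filter, mem_inter]
    constructor
    · rintro ⟨⟨h3, _⟩, h4⟩
      exact ⟨h4, h3⟩
    · rintro ⟨h3, h4⟩
      refine ⟨⟨h4, hg.of_mem h (left_mem _ _) h3 ?_⟩, h3⟩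
      rintro rfl
      exact hpe (mem_pts.1 h4)
  have h3 : ∀ u ∈ (pts I e).filter (fun x => Good I n p x), (bipartiteBelow
      (fun x u => u ∈ line I p x) (univ.filter fun x => Good I n p x) u).card = n := by
    intro u hu
    have hg : Good I n p u := (mem_filter.1 hu).2
    have h4 : (line I p u).erase p =
        bipartiteBelow (fun x u => u ∈ line I p x) (univ.filter fun x => Good I n p x) u := by
      ext x
      simp only [bipartiteBelow, mem_filter, mem_erase, mem_univ, true_and]
      constructor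
      · rintro ⟨h5, h6⟩
        exact ⟨hg.of_mem h (left_mem _ _) h6 (Ne.symm h5), mem_line_symm h hg.1 (Ne.symm h5) h6⟩
      · rintro ⟨h5, h6⟩
        exact ⟨h5.1.symm, mem_line_symm h h5.1 hg.1 h6⟩
    rw [← h4, card_erase_of_mem (left_mem p u), hg.2]
    rfl
  rw [sum_congr rfl h2, sum_congr rfl h3, sum_const, sum_const, smul_eq_mul, smul_eq_mul,
    mul_one] at h1
  rw [h1, Nat.mul_comm]

open Classical in
/-- **The number of bad partners** of a point which is not perfect. -/
theorem card_bad (hn : 1 ≤ n) {p u : P} (hpu : p ≠ u) (hbad : ¬ Good I n p u) :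
    n * (n + 2) ≤ (univ.filter fun x => p ≠ x ∧ ¬ Good I n p x).card := by
  obtain ⟨e, hpe, hue⟩ := exists_irr_block h hn hpu hbad
  have h1 := card_irr h hpe ⟨u, hue⟩
  have h2 : irr I r p e ⊆ (pts I e).filter fun x => ¬ Good I n p x := by
    intro x hx
    exact mem_filter.2 ⟨(mem_filter.1 hx).1, not_good_of_irr h hn hpe hx⟩
  have h3 := h1.trans (card_le_card h2)
  have h4 := card_filter_add_card_filter_not (s := pts I e) fun x => Good I n p x
  rw [h.bl] at h4
  have h5 := card_good h hpe
  have h6 := card_filter_add_card_filter_not (s := (univ : Finset P).erase p) fun x => Good I n p x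
  rw [card_erase_of_mem (mem_univ p), card_univ, h.cardP, Nat.add_sub_cancel] at h6
  have h7 : ((univ : Finset P).erase p).filter (fun x => Good I n p x) =
      univ.filter fun x => Good I n p x := by
    ext x
    simp only [mem_filter, mem_erase, mem_univ, and_true, true_and, and_iff_right_iff_imp]
    exact fun hg => hg.1.symm
  have h8 : ((univ : Finset P).erase p).filter (fun x => ¬ Good I n p x) =
      univ.filter fun x => p ≠ x ∧ ¬ Good I n p x := by
    ext x
    simp only [mem_filter, mem_erase, mem_univ, and_true, true_and]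
    constructor
    · rintro ⟨h9, h10⟩
      exact ⟨h9.symm, h10⟩
    · rintro ⟨h9, h10⟩
      exact ⟨h9.symm, h10⟩
  rw [h7, h8, h5] at h6
  set a := ((pts I e).filter fun x => Good I n p x).card with ha
  set b := ((pts I e).filter fun x => ¬ Good I n p x).card with hb
  have h9 : n * (n * (n * r + 1) + 1) = n * a + n * b := by
    rw [← h4]
    ring
  have h10 : n * (n + 2) ≤ n * b := Nat.mul_le_mul_left _ h3
  omega

end

end Pool.Agent.V7H30.DG
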