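import Pool.Agent.V7H30.DG.Sub
import Pool.Agent.V7H30.DW.Nuclei

/-!
# Nuclei in projective spaces
-/

set_option autoImplicit false

namespace Pool.Agent.V7H30.DG

open Finset Pool.Agent.V7H30.DW Pool.Agent.N606.ST

noncomputable section

/-- `g n j = 1 + n + ⋯ + n ^ (j - 1)` -/
def g (n : ℕ) : ℕ → ℕ
  | 0 => 0
  | j + 1 => n * g n j + 1

theorem g_succ (n j : ℕ) : g n (j + 1) = n * g n j + 1 := rfl

theorem g_le (n : ℕ) (j : ℕ) : g n (j + 1) ≤ (n + 1) ^ j := by
  induction j with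
  | zero => simp [g]
  | succ j ih =>
    rw [g_succ, pow_succ]
    have h1 : 1 ≤ (n + 1) ^ j := Nat.one_le_pow _ _ (by omega)
    nlinarith

theorem g_pos (n j : ℕ) : 1 ≤ g n (j + 1) := by
  rw [g_succ]
  omega

section plane

variable {P B : Type} [Fintype P] [Fintype B] {I : P → B → Prop} {n l r : ℕ}

theorem line_eq_pts (h : Des I n 1) {x y : P} (hxy : x ≠ y) {b : B} (hx : I x b) (hy : I y b) :
    line I x y = pts I b := by
  classical
  refine Subset.antisymm (line_sub hx hy) ?_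
  intro z hz
  rw [mem_line]
  intro c hxc hyc
  have h1 := h.pp x y hxy
  obtain ⟨d, hd⟩ := card_eq_one.1 h1
  have h2 : b ∈ thr I x ∩ thr I y := mem_inter.2 ⟨mem_thr.2 hx, mem_thr.2 hy⟩
  have h3 : c ∈ thr I x ∩ thr I y := mem_inter.2 ⟨mem_thr.2 hxc, mem_thr.2 hyc⟩
  rw [hd, mem_singleton] at h2 h3
  rw [h3, ← h2]
  exact mem_pts.1 hz

theorem exists_join (h : Des I n 1) {x y : P} (hxy : x ≠ y) : ∃ b, I x b ∧ I y b := by
  classical
  have h1 : (thr I x ∩ thr I y).Nonempty := by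
    rw [← card_pos, h.pp x y hxy]
    exact Nat.one_pos
  obtain ⟨b, hb⟩ := h1
  rw [mem_inter, mem_thr, mem_thr] at hb
  exact ⟨b, hb⟩

theorem good_of_plane (h : Des I n 1) {x y : P} (hxy : x ≠ y) : Good I n x y := by
  obtain ⟨b, hx, hy⟩ := exists_join h hxy
  refine ⟨hxy, ?_⟩
  rw [line_eq_pts h hxy hx hy, h.bl, mul_one]

open Classical in
theorem plane_of_des (h : Des I n 1) : Plane n ((univ : Finset B).image (pts I)) := by
  refine ⟨?_, ?_, ?_⟩
  · rw [h.cardP]
    ring
  · intro b hb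
    rw [mem_image] at hb
    obtain ⟨c, _, rfl⟩ := hb
    rw [h.bl, mul_one]
  · intro x y hxy
    obtain ⟨b, hx, hy⟩ := exists_join h hxy
    refine ⟨pts I b, ⟨mem_image.2 ⟨b, mem_univ _, rfl⟩, mem_pts.2 hx, mem_pts.2 hy⟩, ?_⟩
    rintro c ⟨h1, h2, h3⟩
    rw [mem_image] at h1
    obtain ⟨d, _, rfl⟩ := h1
    rw [← line_eq_pts h hxy (mem_pts.1 h2) (mem_pts.1 h3), line_eq_pts h hxy hx hy]

open Classical in
/-- Sets of `n + 1` points which are no lines have at most `C` nuclei in planes of order `n`. -/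
def PlaneBound (n C : ℕ) : Prop := ∀ {P B : Type} [Fintype P] [Fintype B] {I : P → B → Prop},
  Des I n 1 → ∀ {T Z : Finset P}, T.card = n + 1 → (∀ b, T ≠ pts I b) →
    (∀ z ∈ Z, z ∉ T ∧ ∀ x, z ≠ x → (line I z x ∩ T).card = 1) → Z.card ≤ C

open Classical in
theorem nuclei_aux (h : Des I n 1) (hn : 2 ≤ n) {T Z : Finset P}
    (hTB : ∀ b, T ≠ pts I b)
    (hZ : ∀ z ∈ Z, z ∉ T ∧ ∀ x, z ≠ x → (line I z x ∩ T).card = 1) :
    T ∉ (univ : Finset B).image (pts I) ∧
      ∀ z ∈ Z, z ∉ T ∧ ∀ b ∈ (univ : Finset B).image (pts I), z ∈ b → (b ∩ T).card ≤ 1 := by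
  refine ⟨?_, ?_⟩
  · intro hT
    rw [mem_image] at hT
    obtain ⟨b, _, hb⟩ := hT
    exact hTB b hb.symm
  · intro z hz
    refine ⟨(hZ z hz).1, ?_⟩
    intro b hb hzb
    rw [mem_image] at hb
    obtain ⟨c, _, rfl⟩ := hb
    obtain ⟨x, hx, hxz⟩ := exists_mem_ne (by rw [h.bl, mul_one]; omega : 1 < (pts I c).card) z
    rw [← line_eq_pts h hxz.symm (mem_pts.1 hzb) (mem_pts.1 hx)]
    exact ((hZ z hz).2 x hxz.symm).le

theorem planeBound_half {n : ℕ} (hn : 2 ≤ n) : PlaneBound n (n * (n - 1) / 2) := by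
  classical
  intro P B _ _ I h T Z hT hTB hZ
  obtain ⟨h1, h2⟩ := nuclei_aux h hn hTB hZ
  have h3 := nuclei_half (plane_of_des h) hn hT h1 h2
  omega

theorem planeBound_sqrt {n : ℕ} (hn : 2 ≤ n) : PlaneBound n (Nat.sqrt (4 * n * (n + 1) ^ 2)) := by
  classical
  intro P B _ _ I h T Z hT hTB hZ
  obtain ⟨h1, h2⟩ := nuclei_aux h hn hTB hZ
  have h3 := nuclei (plane_of_des h) hn hT h1 h2
  rw [Nat.le_sqrt']
  exact h3

end plane

section step

variable {P B : Type} [Fintype P] [Fintype B] {I : P → B → Prop} {n l r : ℕ}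

open Classical in
/-- The number of points of `T` in a block through a nucleus. -/
theorem card_inter_nucleus (h : Des I n l) (hn : 1 ≤ n) (hall : ∀ x y, x ≠ y → Good I n x y)
    {T : Finset P} {z : P} (hzT : z ∉ T) (hz : ∀ x, z ≠ x → (line I z x ∩ T).card = 1) {b : B}
    (hzb : I z b) : (pts I b ∩ T).card = l := by
  have h1 := sum_card_bipartiteAbove_eq_sum_card_bipartiteBelow (s := (pts I b).erase z)
    (t := pts I b ∩ T) fun x w => w ∈ line I z x
  have h2 : ∀ x ∈ (pts I b).erase z,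
      (bipartiteAbove (fun x w => w ∈ line I z x) (pts I b ∩ T) x).card = 1 := by
    intro x hx
    rw [mem_erase, mem_pts] at hx
    rw [← hz x hx.1.symm]
    congr 1
    ext w
    simp only [bipartiteAbove, mem_filter, mem_inter]
    constructor
    · rintro ⟨⟨_, h4⟩, h5⟩
      exact ⟨h5, h4⟩
    · rintro ⟨h3, h4⟩
      exact ⟨⟨line_sub hzb hx.2 h3, h4⟩, h3⟩
  have h3 : ∀ w ∈ pts I b ∩ T,
      (bipartiteBelow (fun x w => w ∈ line I z x) ((pts I b).erase z) w).card = n := by
    intro w hw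
    rw [mem_inter, mem_pts] at hw
    have hzw : z ≠ w := by
      rintro rfl
      exact hzT hw.2
    have h4 : (line I z w).erase z =
        bipartiteBelow (fun x w => w ∈ line I z x) ((pts I b).erase z) w := by
      ext x
      simp only [bipartiteBelow, mem_filter, mem_erase]
      constructor
      · rintro ⟨h5, h6⟩
        exact ⟨⟨h5, line_sub hzb hw.1 h6⟩, mem_line_symm h hzw (Ne.symm h5) h6⟩
      · rintro ⟨⟨h5, h6⟩, h7⟩
        exact ⟨h5, mem_line_symm h (Ne.symm h5) hzw h7⟩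
    rw [← h4, card_erase_of_mem (left_mem z w), (hall z w hzw).2]
    rfl
  rw [sum_congr rfl h2, sum_congr rfl h3, sum_const, sum_const, smul_eq_mul, smul_eq_mul, mul_one,
    card_erase_of_mem (mem_pts.2 hzb), h.bl, Nat.add_sub_cancel, Nat.mul_comm n] at h1
  exact (Nat.eq_of_mul_eq_mul_right (by omega) h1).symm

end step

open Classical in
/-- **Nuclei in projective spaces.** -/
theorem nuclei_gen {n C : ℕ} (hn : 2 ≤ n) (hC : PlaneBound n C) (j : ℕ) : ∀ {P B : Type}
    [Fintype P] [Fintype B]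
    {I : P → B → Prop}, Des I n (g n (j + 1)) → (∀ x y, x ≠ y → Good I n x y) →
    ∀ {T Z : Finset P}, T.card = g n (j + 2) → ∀ {x₀ y₀ : P}, x₀ ∈ T → y₀ ∈ T → x₀ ≠ y₀ →
    ¬ line I x₀ y₀ ⊆ T → (∀ z ∈ Z, z ∉ T ∧ ∀ x, z ≠ x → (line I z x ∩ T).card = 1) →
    Z.card ≤ g n (j + 1) * C := by
  classical
  induction j with
  | zero =>
    intro P B _ _ I h _ T Z hT x₀ y₀ hx₀ hy₀ hxy hl hZ
    have e1 : g n 1 = 1 := by simp [g]
    have e2 : g n 2 = n + 1 := by simp [g]
    rw [e1] at h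
    rw [e2] at hT
    rw [e1, one_mul]
    refine hC h hT ?_ hZ
    rintro b rfl
    exact hl (line_sub (mem_pts.1 hx₀) (mem_pts.1 hy₀))
  | succ j ih =>
    intro P B _ _ I h hall T Z hT x₀ y₀ hx₀ hy₀ hxy hl hZ
    have h' : Des I n (n * g n (j + 1) + 1) := h
    set r := g n (j + 1) with hr
    have hr1 : 1 ≤ r := g_pos n j
    have hT' : T.card = n * (n * r + 1) + 1 := hT
    have hzl : ∀ z ∈ Z, z ∉ line I x₀ y₀ := by
      intro z hz hzl
      have hzx : z ≠ x₀ := by
        rintro rfl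
        exact (hZ z hz).1 hx₀
      have h1 := (hZ z hz).2 x₀ hzx
      have h2 : 1 < (line I z x₀ ∩ T).card := by
        refine one_lt_card.2 ⟨x₀, mem_inter.2 ⟨right_mem _ _, hx₀⟩, y₀, mem_inter.2 ⟨?_, hy₀⟩, hxy⟩
        rw [line_eq h' hxy hzl (left_mem _ _) hzx]
        exact right_mem _ _
      omega
    -- double counting
    have h1 := dc (I := I) (thr I x₀ ∩ thr I y₀) Z
    have h2 : ∑ z ∈ Z, ((thr I x₀ ∩ thr I y₀) ∩ thr I z).card = Z.card * r := by
      rw [card_eq_sum_ones, sum_mul]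
      refine sum_congr rfl fun z hz => ?_
      have h3 := card_blk h' (hall x₀ y₀ hxy) (hzl z hz)
      have h4 : n * (thr I x₀ ∩ thr I y₀ ∩ thr I z).card = n * r := by omega
      rw [one_mul]
      exact Nat.eq_of_mul_eq_mul_left (by omega) h4
    rw [h2] at h1
    have h3 : ∀ b ∈ thr I x₀ ∩ thr I y₀, (Z ∩ pts I b).card ≤ r * C := by
      intro b hb
      rw [mem_inter, mem_thr, mem_thr] at hb
      rcases (Z ∩ pts I b).eq_empty_or_nonempty with h0 | ⟨z, hz⟩
      · rw [h0, card_empty]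
        exact Nat.zero_le _
      rw [mem_inter, mem_pts] at hz
      obtain ⟨p, hp⟩ : ∃ p, p ∉ pts I b := by
        by_contra hcon
        push Not at hcon
        have h4 := card_le_card (fun p _ => hcon p : (univ : Finset P) ⊆ pts I b)
        rw [card_univ, h'.cardP, h'.bl] at h4
        have h5 := Nat.mul_le_mul_right (n * (n * r + 1) + 1) hn
        omega
      have hpb : ¬ I p b := fun hc => hp (mem_pts.2 hc)
      have hperf : ∀ p, Perf I n p := fun p y hy => hall p y hy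
      have hD := des_sub h' (by omega) hr1 hpb (hperf p)
      have hline : ∀ z x : Pt I b, z ≠ x → line (sub I p b) z x = res I b (line I z.1 x.1) :=
        fun z x hzx => line_sub_eq h' (by omega) hr1 hpb (hperf p) (hperf z.1) hzx
      have hTb : (pts I b ∩ T).card = n * r + 1 :=
        card_inter_nucleus h' (by omega) hall (hZ z hz.1).1 (hZ z hz.1).2 hz.2
      have hx₀y₀ : (⟨x₀, mem_pts.2 hb.1⟩ : Pt I b) ≠ ⟨y₀, mem_pts.2 hb.2⟩ := by
        intro hc
        exact hxy (congrArg Subtype.val hc)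
      have h5 := ih (I := sub I p b) hD
        (fun x y hxy => perf_sub h' (by omega) hr1 hpb (hperf p) (hperf x.1) y hxy)
        (T := res I b T) (Z := res I b Z) (by rw [card_res]; exact hTb)
        (x₀ := ⟨x₀, mem_pts.2 hb.1⟩) (y₀ := ⟨y₀, mem_pts.2 hb.2⟩) (mem_res.2 hx₀) (mem_res.2 hy₀)
        hx₀y₀ (by
          rw [hline _ _ hx₀y₀]
          intro hc
          apply hl
          intro w hw
          have h6 : (⟨w, line_sub hb.1 hb.2 hw⟩ : Pt I b) ∈ res I b (line I x₀ y₀) :=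
            mem_res.2 hw
          exact mem_res.1 (hc h6)) (by
          intro z hz
          rw [mem_res] at hz
          refine ⟨fun hc => (hZ z.1 hz).1 (mem_res.1 hc), ?_⟩
          intro x hzx
          have h6 := (hZ z.1 hz).2 x.1 fun hc => hzx (Subtype.ext hc)
          have h8 : (res I b (line I z.1 x.1) ∩ res I b T).card = 1 := by
            have h7 : res I b (line I z.1 x.1) ∩ res I b T = res I b (line I z.1 x.1 ∩ T) := by
              ext w
              rw [mem_inter, mem_res, mem_res, mem_res, mem_inter]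
            rw [← h6, h7, card_res]
            congr 1
            rw [inter_eq_right]
            intro w hw
            exact line_sub (mem_pts.1 z.2) (mem_pts.1 x.2) (mem_inter.1 hw).1
          rw [hline z x hzx]
          exact (card_inter_inst _ _ _ _).trans h8)
      rw [card_res, inter_comm] at h5
      exact h5
    have h5 := sum_le_sum h3
    rw [sum_const, smul_eq_mul, h1, h'.pp x₀ y₀ hxy] at h5
    have h6 : r * Z.card ≤ r * ((n * r + 1) * C) := by
      calc r * Z.card = Z.card * r := Nat.mul_comm _ _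
        _ ≤ _ := h5
        _ = _ := by ring
    exact Nat.le_of_mul_le_mul_left h6 hr1

end

end Pool.Agent.V7H30.DG
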