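import Pool.Agent.V7H30.DG.Final
import Pool.Agent.V7H30.DG.Near

/-!
# The dichotomy
-/

set_option autoImplicit false

namespace Pool.Agent.V7H30.DG

open Finset Pool.Agent.V7H30.DW

variable {P B : Type} [Fintype P] [Fintype B] {I : P → B → Prop} {n : ℕ}

/-- The number of perfect points. -/
theorem perfs_few (hn : 3 ≤ n) {j : ℕ} (h : Des I n (g n (j + 2))) {u w : P} (huw : u ≠ w)
    (hbad : ¬ Good I n u w) :
    2 * (perfs I n).card < n * (n * g n (j + 2) + 1) + 1 ∧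
      (perfs I n).card ^ 2 ≤ 5 * n * (n + 1) ^ 2 * (g n (j + 2)) ^ 2 := by
  set l := g n (j + 2) with hl
  constructor
  · have h1 : 2 * (n * (n - 1) / 2) ≤ n * (n - 1) := Nat.mul_div_le _ _
    have h2 : n ≤ n * (n - 1) / 2 := by
      rw [Nat.le_div_iff_mul_le (by norm_num)]
      exact Nat.mul_le_mul_left _ (by omega)
    have h3 := card_perfs (by omega) (planeBound_half (by omega)) h2 (j + 1) h huw hbad
    obtain ⟨m, rfl⟩ : ∃ m, n = m + 1 := ⟨n - 1, by omega⟩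
    rw [Nat.add_sub_cancel] at h1 h2 h3
    have h4 : 2 * (g (m + 1) (j + 2) * ((m + 1) * m / 2 + 1)) ≤ l * ((m + 1) * m + 2) := by
      calc 2 * (g (m + 1) (j + 2) * ((m + 1) * m / 2 + 1)) =
          l * (2 * ((m + 1) * m / 2) + 2) := by rw [hl]; ring
        _ ≤ _ := Nat.mul_le_mul_left _ (by omega)
    have h5 : l * ((m + 1) * m + 2) < (m + 1) * ((m + 1) * l + 1) + 1 := by
      have h6 : 2 * l ≤ (m + 1) * l := Nat.mul_le_mul_right _ (by omega)
      nlinarith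
    calc 2 * (perfs I (m + 1)).card ≤ 2 * (g (m + 1) (j + 2) * ((m + 1) * m / 2 + 1)) :=
          Nat.mul_le_mul_left _ h3
      _ ≤ _ := h4
      _ < _ := h5
  · set C := Nat.sqrt (4 * n * (n + 1) ^ 2) with hC
    have h2 : n ≤ C := by
      rw [hC, Nat.le_sqrt']
      nlinarith [Nat.zero_le (n ^ 3)]
    have h3 := card_perfs (by omega) (planeBound_sqrt (by omega)) h2 (j + 1) h huw hbad
    have h4 : C ^ 2 ≤ 4 * n * (n + 1) ^ 2 := by
      rw [hC]
      exact Nat.sqrt_le' _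
    have h5 : 2 * C + 1 ≤ n * (n + 1) ^ 2 := by
      by_contra hcon
      push Not at hcon
      set X := n * (n + 1) ^ 2 with hX
      have h6 : X ≤ 2 * C := by omega
      have h7 : X ^ 2 ≤ (2 * C) ^ 2 := Nat.pow_le_pow_left h6 2
      have h8 : (2 * C) ^ 2 ≤ 16 * X := by
        calc (2 * C) ^ 2 = 4 * C ^ 2 := by ring
          _ ≤ 4 * (4 * n * (n + 1) ^ 2) := Nat.mul_le_mul_left _ h4
          _ = _ := by rw [hX]; ring
      have h9 : 48 ≤ X := by
        rw [hX]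
        calc 48 = 3 * (3 + 1) ^ 2 := by norm_num
          _ ≤ _ := Nat.mul_le_mul hn (Nat.pow_le_pow_left (by omega) 2)
      nlinarith
    calc (perfs I n).card ^ 2 ≤ (l * (C + 1)) ^ 2 := Nat.pow_le_pow_left h3 2
      _ = (C ^ 2 + (2 * C + 1)) * l ^ 2 := by ring
      _ ≤ (4 * n * (n + 1) ^ 2 + n * (n + 1) ^ 2) * l ^ 2 :=
          Nat.mul_le_mul_right _ (Nat.add_le_add h4 h5)
      _ = _ := by ring

/-- **The dichotomy.** -/
theorem dichotomy (hn : 3 ≤ n) {j : ℕ} (h : Des I n (g n (j + 2))) :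
    (IsPrimePow n ∧ ∀ x y, x ≠ y → Good I n x y) ∨
    ((2 * (perfs I n).card < n * (n * g n (j + 2) + 1) + 1 ∧
        (perfs I n).card ^ 2 ≤ 5 * n * (n + 1) ^ 2 * (g n (j + 2)) ^ 2) ∧
      (2 * (perfs (flip I) n).card < n * (n * g n (j + 2) + 1) + 1 ∧
        (perfs (flip I) n).card ^ 2 ≤ 5 * n * (n + 1) ^ 2 * (g n (j + 2)) ^ 2)) := by
  by_cases hall : ∀ x y, x ≠ y → Good I n x y
  · exact Or.inl ⟨isPrimePow_gen (by omega) j h hall, hall⟩
  · right
    have hall' := hall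
    rw [← all_flip h (by omega)] at hall'
    push Not at hall hall'
    obtain ⟨u, w, huw, hbad⟩ := hall
    obtain ⟨e, f, hef, hbad'⟩ := hall'
    exact ⟨perfs_few hn h huw hbad, perfs_few hn h.dual hef hbad'⟩

end Pool.Agent.V7H30.DG
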