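import Pool.Agent.V7H30.DG.Nuc

/-!
# The number of perfect points
-/

set_option autoImplicit false

namespace Pool.Agent.V7H30.DG

open Finset Pool.Agent.V7H30.DW

noncomputable section

open Classical in
/-- the perfect points -/
def perfs {P B : Type} [Fintype P] (I : P → B → Prop) (n : ℕ) : Finset P :=
  univ.filter fun p => Perf I n p

variable {P B : Type} [Fintype P] [Fintype B] {I : P → B → Prop} {n l r C : ℕ}

omit [Fintype B] in
@[simp] theorem mem_perfs {p : P} : p ∈ perfs I n ↔ Perf I n p := by simp [perfs]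

open Classical in
/-- A set of the size of a block, which is not a block, is a cone with at most `r` vertices. -/
theorem card_apex (h : Des I n r) (hn : 1 ≤ n) {T A : Finset P} (hT : T.card = n * r + 1)
    (hTB : ∀ b, T ≠ pts I b)
    (hA : ∀ a ∈ A, a ∈ T ∧ ∀ y ∈ T, a ≠ y → Good I n a y ∧ line I a y ⊆ T) : A.card ≤ r := by
  have h1 : ∀ a ∈ A, ∀ b, (T ∩ pts I b).card ≠ r → I a b := by
    intro a ha b hb
    by_contra hab
    have h2 := cone_inter h (hA a ha).1 (hA a ha).2 hab
    rw [hT] at h2
    have h3 : n * (T ∩ pts I b).card = n * r := by omega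
    exact hb (Nat.eq_of_mul_eq_mul_left (by omega) h3)
  have hsum := h.sum1 T
  rw [hT] at hsum
  obtain ⟨b, hb⟩ : ∃ b, (T ∩ pts I b).card ≠ r := by
    by_contra hcon
    push Not at hcon
    rw [sum_congr rfl fun b _ => hcon b, sum_const, card_univ, h.cardB, smul_eq_mul] at hsum
    nlinarith [Nat.zero_le r, Nat.mul_le_mul_right r hn]
  obtain ⟨c, hcb, hc⟩ : ∃ c, c ≠ b ∧ (T ∩ pts I c).card ≠ r := by
    by_contra hcon
    push Not at hcon
    rw [← add_sum_erase _ _ (mem_univ b), sum_congr rfl fun c hc => hcon c (mem_erase.1 hc).1,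
      sum_const, card_erase_of_mem (mem_univ b), card_univ, h.cardB, Nat.add_sub_cancel,
      smul_eq_mul] at hsum
    have h3 : (T ∩ pts I b).card = n * r + 1 := by nlinarith
    have h4 : T ∩ pts I b = T := eq_of_subset_of_card_le inter_subset_left (by rw [hT, h3])
    refine hTB b (eq_of_subset_of_card_le ?_ (by rw [hT, h.bl]))
    rw [← h4]
    exact inter_subset_right
  rw [← h.bb b c hcb.symm]
  refine card_le_card fun a ha => ?_
  exact mem_inter.2 ⟨mem_pts.2 (h1 a ha b hb), mem_pts.2 (h1 a ha c hc)⟩

open Classical in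
/-- The perfect points of a block which looks like a projective space from a perfect point, but
contains a bad pair. -/
theorem perf_in_block (hn : 2 ≤ n) (hC : PlaneBound n C) {j : ℕ}
    (h : Des I n (n * g n (j + 1) + 1)) {p : P} {e : B}
    (hpe : ¬ I p e) (hp : Perf I n p) (hall : ∀ x y, x ≠ y → Good (sub I p e) n x y) {u w : P}
    (hu : I u e) (hw : I w e) (huw : u ≠ w) (hbad : ¬ Good I n u w) :
    (perfs I n ∩ pts I e).card ≤ g n (j + 1) * (C + 1) := by
  set r := g n (j + 1) with hr
  have hr1 : 1 ≤ r := g_pos n j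
  have hn1 : 1 ≤ n := by omega
  set u' : Pt I e := ⟨u, mem_pts.2 hu⟩ with hu'
  set w' : Pt I e := ⟨w, mem_pts.2 hw⟩ with hw'
  have huw' : u' ≠ w' := fun hc => huw (congrArg Subtype.val hc)
  -- a block which does not contain the line of `u` and `w` seen from `p`
  obtain ⟨f, hef, huf, hwf, hline⟩ : ∃ f, e ≠ f ∧ I u f ∧ I w f ∧
      ¬ line (sub I p e) u' w' ⊆ res I e (pts I f) := by
    by_contra hcon
    push Not at hcon
    apply hbad
    refine ⟨huw, le_antisymm (card_line_le h hn1 huw) ?_⟩
    rw [← (hall u' w' huw').2]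
    refine card_le_card_of_injOn (fun x => x.1) ?_ fun x _ y _ hxy => Subtype.ext hxy
    intro x hx
    rw [mem_coe] at hx ⊢
    rw [mem_line]
    intro b hub hwb
    by_cases heb : e = b
    · exact heb ▸ mem_pts.1 x.2
    · exact mem_pts.1 (mem_res.1 (hcon b heb hub hwb hx))
  set T := res I e (pts I f) with hT
  have hTc : T.card = n * r + 1 := by
    rw [hT, card_res, h.bb e f hef]
  have hD : Des (sub I p e) n r := des_sub h hn1 hr1 hpe hp
  have huT : u' ∈ T := mem_res.2 (mem_pts.2 huf)
  have hwT : w' ∈ T := mem_res.2 (mem_pts.2 hwf)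
  set Z : Finset (Pt I e) := univ.filter fun z => Perf I n z.1 ∧ ¬ I z.1 f with hZdef
  have hZc : Z.card ≤ r * C := by
    refine nuclei_gen hn hC j (I := sub I p e) hD hall (T := T) (Z := Z) hTc
      (x₀ := u') (y₀ := w') huT hwT huw' hline ?_
    intro z hz
    rw [hZdef, mem_filter] at hz
    refine ⟨fun hc => hz.2.2 (mem_pts.1 (mem_res.1 hc)), ?_⟩
    intro x hzx
    have h1 := card_meet h (hz.2.1 x.1 fun hc => hzx (Subtype.ext hc)) (b := f)
      fun hc => hz.2.2 hc.1
    have h2 : (res I e (line I z.1 x.1) ∩ T).card = 1 := by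
      have h3 : res I e (line I z.1 x.1) ∩ T = res I e (line I z.1 x.1 ∩ pts I f) := by
        ext v
        rw [mem_inter, hT, mem_res, mem_res, mem_res, mem_inter]
      rw [← h1, h3, card_res]
      congr 1
      rw [inter_eq_right]
      intro v hv
      exact line_sub (mem_pts.1 z.2) (mem_pts.1 x.2) (mem_inter.1 hv).1
    rw [line_sub_eq h hn1 hr1 hpe hp hz.2.1 hzx]
    exact (card_inter_inst _ _ _ _).trans h2
  -- the perfect points of `T`
  set A : Finset (Pt I e) := univ.filter fun z => Perf I n z.1 ∧ I z.1 f with hAdef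
  have hAc : A.card ≤ r := by
    refine card_apex hD hn1 (T := T) hTc ?_ ?_
    · intro b hb
      apply hline
      rw [hb] at huT hwT ⊢
      exact line_sub (mem_pts.1 huT) (mem_pts.1 hwT)
    · intro a ha
      rw [hAdef, mem_filter] at ha
      refine ⟨mem_res.2 (mem_pts.2 ha.2.2), ?_⟩
      intro y hy hay
      refine ⟨hall a y hay, ?_⟩
      rw [line_sub_eq h hn1 hr1 hpe hp ha.2.1 hay]
      intro w hw
      rw [mem_res] at hw
      exact mem_res.2 (line_sub ha.2.2 (mem_pts.1 (mem_res.1 hy)) hw)
  -- all perfect points of `e`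
  have h1 : (perfs I n ∩ pts I e).card ≤ Z.card + A.card := by
    have h2 : (perfs I n ∩ pts I e).card = (res I e (perfs I n)).card := by
      rw [card_res, inter_comm]
    rw [h2]
    refine (card_le_card ?_).trans (card_union_le Z A)
    intro z hz
    rw [mem_res, mem_perfs] at hz
    rw [mem_union]
    by_cases hzf : I z.1 f
    · exact Or.inr (mem_filter.2 ⟨mem_univ _, hz, hzf⟩)
    · exact Or.inl (mem_filter.2 ⟨mem_univ _, hz, hzf⟩)
  calc (perfs I n ∩ pts I e).card ≤ Z.card + A.card := h1
    _ ≤ r * C + r := Nat.add_le_add hZc hAc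
    _ = _ := by ring

/-- **The number of perfect points** of a design with a bad pair. -/
theorem card_perfs (hn : 2 ≤ n) (hC : PlaneBound n C) (hnC : n ≤ C) (j : ℕ) :
    ∀ {P B : Type} [Fintype P] [Fintype B]
    {I : P → B → Prop}, Des I n (g n (j + 1)) → ∀ {u w : P}, u ≠ w → ¬ Good I n u w →
    (perfs I n).card ≤ g n (j + 1) * (C + 1) := by
  classical
  induction j with
  | zero =>
    intro P B _ _ I h u w huw hbad
    have e1 : g n 1 = 1 := by simp [g]
    rw [e1] at h
    exact absurd (good_of_plane h huw) hbad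
  | succ j ih =>
    intro P B _ _ I h u w huw hbad
    have h' : Des I n (n * g n (j + 1) + 1) := h
    have hn1 : 1 ≤ n := by omega
    have hr1 : 1 ≤ g n (j + 1) := g_pos n j
    have hpu : ∀ p ∈ perfs I n, p ≠ u := by
      rintro p hp rfl
      exact hbad (mem_perfs.1 hp w huw)
    rw [g_succ n (j + 1)]
    set r := g n (j + 1) with hr
    by_cases hsub : ∃ e, I u e ∧ I w e ∧ perfs I n ⊆ pts I e
    · obtain ⟨e, _, _, hs⟩ := hsub
      have h1 := card_le_card hs
      rw [h'.bl] at h1
      have h2 : n * (n * r + 1) ≤ C * (n * r + 1) := Nat.mul_le_mul_right _ hnC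
      nlinarith
    · push Not at hsub
      have h1 : ∀ e ∈ thr I u ∩ thr I w, (perfs I n ∩ pts I e).card ≤ r * (C + 1) := by
        intro e he
        rw [mem_inter, mem_thr, mem_thr] at he
        obtain ⟨p, hp, hpe⟩ := not_subset.1 (hsub e he.1 he.2)
        have hpe' : ¬ I p e := fun hc => hpe (mem_pts.2 hc)
        have hp' := mem_perfs.1 hp
        by_cases hall : ∀ x y, x ≠ y → Good (sub I p e) n x y
        · exact perf_in_block hn hC h' hpe' hp' hall he.1 he.2 huw hbad
        · push Not at hall
          obtain ⟨x, y, hxy, hxy'⟩ := hall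
          have h2 := ih (I := sub I p e) (des_sub h' hn1 hr1 hpe' hp') hxy hxy'
          refine le_trans ?_ h2
          rw [inter_comm, ← card_res]
          refine card_le_card ?_
          intro z hz
          rw [mem_res, mem_perfs] at hz
          exact mem_perfs.2 (perf_sub h' hn1 hr1 hpe' hp' hz)
      -- double counting
      have h2 := dc (I := I) (thr I u ∩ thr I w) (perfs I n)
      have h3 : ∑ p ∈ perfs I n, ((thr I u ∩ thr I w) ∩ thr I p).card =
          (perfs I n).card * r := by
        rw [card_eq_sum_ones, sum_mul]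
        refine sum_congr rfl fun p hp => ?_
        have hg := mem_perfs.1 hp u (hpu p hp)
        have hwl : w ∉ line I p u := fun hc => hbad (hg.of_mem h' (right_mem p u) hc huw)
        have h4 := card_blk h' hg hwl
        have h5 : (thr I u ∩ thr I w) ∩ thr I p = thr I p ∩ thr I u ∩ thr I w := by
          ext b
          simp only [mem_inter, mem_thr]
          tauto
        rw [h5, one_mul]
        have h6 : n * (thr I p ∩ thr I u ∩ thr I w).card = n * r := by omega
        exact Nat.eq_of_mul_eq_mul_left (by omega) h6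
      rw [h3] at h2
      have h5 := sum_le_sum h1
      rw [sum_const, smul_eq_mul, h'.pp u w huw, h2] at h5
      have h6 : r * (perfs I n).card ≤ r * ((n * r + 1) * (C + 1)) := by
        calc r * (perfs I n).card = (perfs I n).card * r := Nat.mul_comm _ _
          _ ≤ _ := h5
          _ = _ := by ring
      exact Nat.le_of_mul_le_mul_left h6 hr1

end

end Pool.Agent.V7H30.DG
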