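import Pool.Agent.V7H30.DG.Dual

/-!
# The trace of the blocks through a perfect point on a block
-/

set_option autoImplicit false

namespace Pool.Agent.V7H30.DG

open Finset Pool.Agent.V7H30.DW

noncomputable section

theorem card_inter_inst {A : Type} (i j : DecidableEq A) (s t : Finset A) :
    (@Inter.inter _ (@Finset.instInter A i) s t).card =
      (@Inter.inter _ (@Finset.instInter A j) s t).card := by
  rw [Subsingleton.elim i j]

/-- the points of the block `e`, as a type -/
abbrev Pt {P B : Type} [Fintype P] (I : P → B → Prop) (e : B) : Type := {x : P // x ∈ pts I e}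

/-- the blocks through the point `p`, as a type -/
abbrev Bl {P B : Type} [Fintype B] (I : P → B → Prop) (p : P) : Type := {b : B // b ∈ thr I p}

/-- the traces of the blocks through `p` on the block `e` -/
def sub {P B : Type} [Fintype P] [Fintype B] (I : P → B → Prop) (p : P) (e : B) :
    Pt I e → Bl I p → Prop := fun x b => I x.1 b.1

open Classical in
/-- the points of `e` in the set `S` -/
def res {P B : Type} [Fintype P] (I : P → B → Prop) (e : B) (S : Finset P) : Finset (Pt I e) :=
  univ.filter fun x => x.1 ∈ S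

variable {P B : Type} [Fintype P] [Fintype B] {I : P → B → Prop} {n l r : ℕ}

omit [Fintype B] in
@[simp] theorem mem_res {e : B} {S : Finset P} {x : Pt I e} : x ∈ res I e S ↔ x.1 ∈ S := by
  simp [res]

omit [Fintype B] in
open Classical in
theorem card_res (e : B) (S : Finset P) : (res I e S).card = (pts I e ∩ S).card := by
  refine card_bij (fun x _ => x.1) ?_ ?_ ?_
  · intro x hx
    exact mem_inter.2 ⟨x.2, mem_res.1 hx⟩
  · intro x _ y _ hxy
    exact Subtype.ext hxy
  · intro x hx
    rw [mem_inter] at hx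
    exact ⟨⟨x, hx.1⟩, mem_res.2 hx.2, rfl⟩

omit [Fintype P] [Fintype B] in
theorem ne_of_not {p : P} {e b : B} (hpe : ¬ I p e) (hpb : I p b) : e ≠ b := by
  rintro rfl
  exact hpe hpb

theorem pts_sub {p : P} {e : B} (b : Bl I p) : pts (sub I p e) b = res I e (pts I b.1) := by
  ext x
  rw [mem_pts, mem_res, mem_pts]
  rfl

open Classical in
theorem card_thr_sub {p : P} {e : B} (x y : Pt I e) :
    (thr (sub I p e) x ∩ thr (sub I p e) y).card = (thr I p ∩ thr I x.1 ∩ thr I y.1).card := by
  refine card_bij (fun b _ => b.1) ?_ ?_ ?_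
  · intro b hb
    rw [mem_inter, mem_thr, mem_thr] at hb
    rw [mem_inter, mem_inter, mem_thr, mem_thr, mem_thr]
    exact ⟨⟨mem_thr.1 b.2, hb.1⟩, hb.2⟩
  · intro x _ y _ hxy
    exact Subtype.ext hxy
  · intro b hb
    rw [mem_inter, mem_inter, mem_thr, mem_thr, mem_thr] at hb
    exact ⟨⟨b, mem_thr.2 hb.1.1⟩, mem_inter.2 ⟨mem_thr.2 hb.1.2, mem_thr.2 hb.2⟩, rfl⟩

theorem not_mem_line (h : Des I n l) {p u v : P} {e : B} (hpe : ¬ I p e) (hu : I u e) (hv : I v e)
    (huv : u ≠ v) : v ∉ line I p u := by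
  intro hv'
  have hpu : p ≠ u := by
    rintro rfl
    exact hpe hu
  exact hpe (sub_of_two h hpu (right_mem p u) hv' huv hu hv).1

theorem des_sub (h : Des I n (n * r + 1)) (hn : 1 ≤ n) (hr : 1 ≤ r) {p : P} {e : B}
    (hpe : ¬ I p e) (hp : Perf I n p) : Des (sub I p e) n r := by
  classical
  refine Sym.of_pp ?_ ?_ ?_ ?_ ?_ ?_ ?_
  · rw [Fintype.card_coe, h.bl]
  · rw [Fintype.card_coe, h.pt]
  · intro b
    rw [pts_sub, card_res, h.bb e b.1 (ne_of_not hpe (mem_thr.1 b.2))]
  · intro x y hxy
    have hxe := mem_pts.1 x.2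
    have hye := mem_pts.1 y.2
    have hpx : p ≠ x.1 := by
      intro hc
      exact hpe (hc ▸ hxe)
    have h1 := card_blk h (hp x.1 hpx)
      (not_mem_line h hpe hxe hye fun hc => hxy (Subtype.ext hc))
    have h2 : n * (thr I p ∩ thr I x.1 ∩ thr I y.1).card = n * r := by omega
    have h3 := Nat.eq_of_mul_eq_mul_left (by omega) h2
    have h4 := card_thr_sub (I := I) (p := p) (e := e) x y
    rw [h3] at h4
    exact (card_inter_inst _ _ _ _).trans h4
  · nlinarith
  · omega
  · rw [Nat.add_sub_cancel, Nat.add_sub_cancel]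
    ring

/-- The line through a perfect point and a further point of `e`. -/
theorem line_sub_eq (h : Des I n (n * r + 1)) (hn : 1 ≤ n) (hr : 1 ≤ r) {p : P} {e : B}
    (hpe : ¬ I p e) (hp : Perf I n p) {z x : Pt I e} (hz : Perf I n z.1) (hzx : z ≠ x) :
    line (sub I p e) z x = res I e (line I z.1 x.1) := by
  classical
  symm
  refine eq_of_subset_of_card_le ?_ ?_
  · intro w hw
    rw [mem_res] at hw
    rw [mem_line]
    intro b hzb hxb
    exact mem_line.1 hw b.1 hzb hxb
  · have h1 := card_line_le (des_sub h hn hr hpe hp) hn hzx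
    have h2 := hz x.1 fun hc => hzx (Subtype.ext hc)
    rw [card_res, inter_eq_right.2 (line_sub (mem_pts.1 z.2) (mem_pts.1 x.2)), h2.2]
    exact h1

theorem perf_sub (h : Des I n (n * r + 1)) (hn : 1 ≤ n) (hr : 1 ≤ r) {p : P} {e : B}
    (hpe : ¬ I p e) (hp : Perf I n p) {z : Pt I e} (hz : Perf I n z.1) :
    Perf (sub I p e) n z := by
  classical
  intro x hzx
  refine ⟨hzx, ?_⟩
  have h2 := hz x.1 fun hc => hzx (Subtype.ext hc)
  rw [line_sub_eq h hn hr hpe hp hz hzx, card_res,
    inter_eq_right.2 (line_sub (mem_pts.1 z.2) (mem_pts.1 x.2)), h2.2]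

end

end Pool.Agent.V7H30.DG
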